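import Pool.Agent.Helper20.RL.St1

/-!
# Project RL (MP_cb927e_an), module LGY: from chords to cells (helper80)
-/

set_option autoImplicit false

open MeasureTheory Set Filter Topology
open scoped ENNReal RealInnerProductSpace

namespace Pool.Agent.Helper80.RL

open Pool.Agent.Helper68.LM (Pl BB Bd Av HL ft fm DQ)
open Pool.Agent.Helper20.RG Pool.Agent.Helper20.RL

/-- the box average of an indicator function, as a density -/
theorem lg_box (hPT : StPT) (F : Set Pl) (hF : MeasurableSet F) (r : ℝ) (hr : 0 < r) (z : Pl) :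
    ∫⁻ w, ‖F.indicator (1 : Pl → ℝ) (z - (2 * r) • w)‖ₑ ∂bx =
      ENNReal.ofReal (1 / (4 * r ^ 2)) * volume (F ∩ Sq z r) := by
  have hS : MeasurableSet (Sq (0 : Pl) (1 / 2)) := (hPT.2.2.2.2.2.2.2 0 (1 / 2) (by norm_num)).1
  have hSz : MeasurableSet (Sq z r) := (hPT.2.2.2.2.2.2.2 z r hr.le).1
  have hmeas : Measurable (fun w : Pl => z - (2 * r) • w) := by fun_prop
  have h1 : ∀ w : Pl, ‖F.indicator (1 : Pl → ℝ) (z - (2 * r) • w)‖ₑ =
      ((fun w : Pl => z - (2 * r) • w) ⁻¹' F).indicator (1 : Pl → ℝ≥0∞) w := by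
    intro w
    by_cases hw : z - (2 * r) • w ∈ F
    · rw [indicator_of_mem hw, indicator_of_mem (show w ∈ (fun w : Pl => z - (2 * r) • w) ⁻¹' F from hw)]
      simp
    · rw [indicator_of_notMem hw,
        indicator_of_notMem (show w ∉ (fun w : Pl => z - (2 * r) • w) ⁻¹' F from hw)]
      simp
  rw [lintegral_congr h1, lintegral_indicator_one (hmeas hF)]
  unfold bx
  rw [Measure.restrict_apply (hmeas hF)]
  have h2 : (fun w : Pl => z - (2 * r) • w) ⁻¹' F ∩ Sq 0 (1 / 2) =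
      (fun w : Pl => (2 * r) • w) ⁻¹' ((fun y : Pl => z - y) ⁻¹' (F ∩ Sq z r)) := by
    ext w
    have e0 : (z - (2 * r) • w) 0 = z 0 - 2 * r * w 0 := by simp
    have e1 : (z - (2 * r) • w) 1 = z 1 - 2 * r * w 1 := by simp
    have z0 : (0 : Pl) 0 = 0 := rfl
    have z1 : (0 : Pl) 1 = 0 := rfl
    have key : ∀ a b : ℝ, |a - 2 * r * b - a| ≤ r ↔ |b - 0| ≤ 1 / 2 := by
      intro a b
      have : a - 2 * r * b - a = (2 * r) * (-b) := by ring
      rw [this, abs_mul, abs_of_pos (by positivity : (0 : ℝ) < 2 * r), abs_neg, sub_zero]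
      constructor
      · intro h
        by_contra hc
        rw [not_le] at hc
        nlinarith
      · intro h
        nlinarith
    simp only [mem_inter_iff, mem_preimage, Sq, mem_ofPred_eq]
    rw [e0, e1, z0, z1, key, key]
  rw [h2, Measure.addHaar_preimage_smul volume (by positivity : (2 * r) ≠ 0),
    (Measure.measurePreserving_sub_left volume z).measure_preimage (hF.inter hSz).nullMeasurableSet]
  congr 2
  have hfin : Module.finrank ℝ Pl = 2 := by
    change Module.finrank ℝ (EuclideanSpace ℝ (Fin 2)) = 2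
    simp
  rw [hfin, abs_of_pos (by positivity)]
  field_simp
  ring

/-- the chord average of an indicator function is bounded by the density in a parallelogram -/
theorem lg_main (hPT : StPT) (s A r : ℝ) (hs : |s| ≤ 1) (hA : 0 < A) (hr : 0 < r) (hrA : r ≤ 2 * A)
    (F : Set Pl) (hF : MeasurableSet F) (x' : Pl) :
    ENNReal.ofReal (Av (sg s) A (Av bx (2 * r) (F.indicator 1)) x') ≤
      ENNReal.ofReal (1 / (2 * r * A)) *
        volume (F ∩ {w | |w 0 - x' 0| ≤ 3 * A ∧ |pr s w - pr s x'| ≤ 2 * r}) := by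
  obtain ⟨Pa, hPa⟩ : ∃ Pa : Set Pl, Pa = {w | |w 0 - x' 0| ≤ 3 * A ∧ |pr s w - pr s x'| ≤ 2 * r} :=
    ⟨_, rfl⟩
  rw [← hPa]
  have hE0 : (E s) 0 = 1 := (hPT.1 1 s).1
  have hE1 : (E s) 1 = s := (hPT.1 1 s).2
  have h1 : ENNReal.ofReal (Av (sg s) A (Av bx (2 * r) (F.indicator 1)) x') ≤
      ∫⁻ t in Icc (-(1 / 2) : ℝ) (1 / 2), ENNReal.ofReal (1 / (4 * r ^ 2)) *
        volume (F ∩ Sq (x' - A • (t • E s)) r) := by
    calc ENNReal.ofReal (Av (sg s) A (Av bx (2 * r) (F.indicator 1)) x')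
        ≤ ‖Av (sg s) A (Av bx (2 * r) (F.indicator 1)) x'‖ₑ := by
          rw [← ofReal_norm]
          exact ENNReal.ofReal_le_ofReal (le_abs_self _)
      _ ≤ ∫⁻ y, ‖Av bx (2 * r) (F.indicator 1) (x' - A • y)‖ₑ ∂(sg s) :=
          enorm_integral_le_lintegral_enorm _
      _ ≤ ∫⁻ t in Icc (-(1 / 2) : ℝ) (1 / 2),
            ‖Av bx (2 * r) (F.indicator 1) (x' - A • (t • E s))‖ₑ := lintegral_map_le _ _
      _ ≤ _ := by
          refine lintegral_mono fun t => ?_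
          refine (enorm_integral_le_lintegral_enorm _).trans ?_
          exact (lg_box hPT F hF r hr (x' - A • (t • E s))).le
  refine h1.trans ?_
  rw [lintegral_const_mul' _ _ ENNReal.ofReal_ne_top]
  have hmT : MeasurableSet {q : ℝ × Pl | q.2 ∈ Sq (x' - A • (q.1 • E s)) r} := by
    have hc0 : IsClosed {q : ℝ × Pl | |q.2 0 - (x' - A • (q.1 • E s)) 0| ≤ r} :=
      isClosed_le (by fun_prop) continuous_const
    have hc1 : IsClosed {q : ℝ × Pl | |q.2 1 - (x' - A • (q.1 • E s)) 1| ≤ r} :=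
      isClosed_le (by fun_prop) continuous_const
    exact (hc0.inter hc1).measurableSet
  have h2 : ∀ t : ℝ, volume (F ∩ Sq (x' - A • (t • E s)) r) =
      ∫⁻ w in F, {q : ℝ × Pl | q.2 ∈ Sq (x' - A • (q.1 • E s)) r}.indicator (1 : ℝ × Pl → ℝ≥0∞) (t, w) := by
    intro t
    have hSz : MeasurableSet (Sq (x' - A • (t • E s)) r) := (hPT.2.2.2.2.2.2.2 _ r hr.le).1
    have e : ∀ w : Pl, {q : ℝ × Pl | q.2 ∈ Sq (x' - A • (q.1 • E s)) r}.indicator
        (1 : ℝ × Pl → ℝ≥0∞) (t, w) = (Sq (x' - A • (t • E s)) r).indicator (1 : Pl → ℝ≥0∞) w := by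
      intro w
      rfl
    rw [lintegral_congr e, lintegral_indicator_one hSz, Measure.restrict_apply hSz, inter_comm]
  have hmf : Measurable (Function.uncurry fun (t : ℝ) (w : Pl) =>
      {q : ℝ × Pl | q.2 ∈ Sq (x' - A • (q.1 • E s)) r}.indicator (1 : ℝ × Pl → ℝ≥0∞) (t, w)) :=
    measurable_one.indicator hmT
  rw [lintegral_congr h2, lintegral_lintegral_swap hmf.aemeasurable]
  have h3 : ∀ w : Pl, ∫⁻ t in Icc (-(1 / 2) : ℝ) (1 / 2),
      {q : ℝ × Pl | q.2 ∈ Sq (x' - A • (q.1 • E s)) r}.indicator (1 : ℝ × Pl → ℝ≥0∞) (t, w) ≤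
      Pa.indicator (fun _ => ENNReal.ofReal (2 * r / A)) w := by
    intro w
    have key : ∀ t : ℝ, w ∈ Sq (x' - A • (t • E s)) r → |w 0 - x' 0 + A * t| ≤ r ∧
        |w 1 - x' 1 + A * t * s| ≤ r := by
      intro t ht
      have ht' : |w 0 - (x' - A • (t • E s)) 0| ≤ r ∧ |w 1 - (x' - A • (t • E s)) 1| ≤ r := ht
      have e0 : (x' - A • (t • E s)) 0 = x' 0 - A * (t * (E s) 0) := by simp
      have e1 : (x' - A • (t • E s)) 1 = x' 1 - A * (t * (E s) 1) := by simp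
      rw [e0, e1, hE0, hE1] at ht'
      refine ⟨?_, ?_⟩
      · have : w 0 - x' 0 + A * t = w 0 - (x' 0 - A * (t * 1)) := by ring
        rw [this]; exact ht'.1
      · have : w 1 - x' 1 + A * t * s = w 1 - (x' 1 - A * (t * s)) := by ring
        rw [this]; exact ht'.2
    by_cases hw : w ∈ Pa
    · rw [indicator_of_mem hw]
      calc ∫⁻ t in Icc (-(1 / 2) : ℝ) (1 / 2),
            {q : ℝ × Pl | q.2 ∈ Sq (x' - A • (q.1 • E s)) r}.indicator (1 : ℝ × Pl → ℝ≥0∞) (t, w)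
          ≤ ∫⁻ t : ℝ, (Icc ((-r - (w 0 - x' 0)) / A) ((r - (w 0 - x' 0)) / A)).indicator
              (1 : ℝ → ℝ≥0∞) t := by
            refine (setLIntegral_le_lintegral _ _).trans (lintegral_mono fun t => ?_)
            by_cases ht : w ∈ Sq (x' - A • (t • E s)) r
            · have h4 := abs_le.1 (key t ht).1
              have h5 : t ∈ Icc ((-r - (w 0 - x' 0)) / A) ((r - (w 0 - x' 0)) / A) := by
                constructor
                · rw [div_le_iff₀ hA]; linarith [h4.1]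
                · rw [le_div_iff₀ hA]; linarith [h4.2]
              rw [indicator_of_mem h5]
              exact indicator_le_self _ _ _
            · rw [indicator_of_notMem (show ((t, w) : ℝ × Pl) ∉
                {q : ℝ × Pl | q.2 ∈ Sq (x' - A • (q.1 • E s)) r} from ht)]
              exact bot_le
        _ = ENNReal.ofReal (2 * r / A) := by
            rw [lintegral_indicator_one measurableSet_Icc, Real.volume_Icc]
            congr 1
            field_simp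
            ring
    · rw [indicator_of_notMem hw]
      refine le_of_eq ?_
      rw [← lintegral_zero (μ := volume.restrict (Icc (-(1 / 2) : ℝ) (1 / 2)))]
      refine setLIntegral_congr_fun measurableSet_Icc fun t ht => ?_
      have hnot : ((t, w) : ℝ × Pl) ∉ {q : ℝ × Pl | q.2 ∈ Sq (x' - A • (q.1 • E s)) r} := by
        intro hmem
        have h4 := key t hmem
        apply hw
        rw [hPa]
        refine ⟨?_, ?_⟩
        · have h5 := abs_le.1 h4.1
          rw [abs_le]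
          have h6 : A * t ≤ A / 2 := by nlinarith [ht.2]
          have h7 : -(A / 2) ≤ A * t := by nlinarith [ht.1]
          constructor <;> linarith [h5.1, h5.2]
        · have h8 : pr s w - pr s x' = (w 1 - x' 1 + A * t * s) - s * (w 0 - x' 0 + A * t) := by
            unfold pr; ring
          rw [h8]
          calc |(w 1 - x' 1 + A * t * s) - s * (w 0 - x' 0 + A * t)|
              ≤ |w 1 - x' 1 + A * t * s| + |s * (w 0 - x' 0 + A * t)| := abs_sub _ _
            _ ≤ r + 1 * r := by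
                rw [abs_mul]
                exact add_le_add h4.2 (mul_le_mul hs h4.1 (abs_nonneg _) zero_le_one)
            _ = 2 * r := by ring
      exact indicator_of_notMem hnot _
  calc ENNReal.ofReal (1 / (4 * r ^ 2)) * ∫⁻ w in F, ∫⁻ t in Icc (-(1 / 2) : ℝ) (1 / 2),
      {q : ℝ × Pl | q.2 ∈ Sq (x' - A • (q.1 • E s)) r}.indicator (1 : ℝ × Pl → ℝ≥0∞) (t, w)
      ≤ ENNReal.ofReal (1 / (4 * r ^ 2)) * ∫⁻ w in F,
          Pa.indicator (fun _ => ENNReal.ofReal (2 * r / A)) w := by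
        gcongr with w
        exact h3 w
    _ ≤ ENNReal.ofReal (1 / (4 * r ^ 2)) * (ENNReal.ofReal (2 * r / A) * volume (F ∩ Pa)) := by
        gcongr
        refine (lintegral_indicator_const_le _ _).trans ?_
        rw [Measure.restrict_apply' hF, inter_comm]
    _ = ENNReal.ofReal (1 / (2 * r * A)) * volume (F ∩ Pa) := by
        rw [← mul_assoc, ← ENNReal.ofReal_mul (by positivity)]
        congr 2
        field_simp
        ring

/-- a closed interval of radius `n P` meets at most `2 n + 1` dyadic intervals of length `P` -/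
theorem lg_floor (P : ℝ) (hP : 0 < P) (n : ℤ) (a b : ℝ) (h : |a - b| ≤ n * P) :
    ⌊a / P⌋ - ⌊b / P⌋ ∈ Finset.Icc (-n) n := by
  have h' := abs_le.1 h
  rw [Finset.mem_Icc]
  have h1 : a / P ≤ b / P + n := by
    rw [div_add' _ _ _ hP.ne', div_le_div_iff_of_pos_right hP]; linarith
  have h2 : b / P ≤ a / P + n := by
    rw [div_add' _ _ _ hP.ne', div_le_div_iff_of_pos_right hP]; linarith
  have h3 : ⌊a / P⌋ ≤ ⌊b / P⌋ + n := by
    rw [← Int.floor_add_intCast]; exact Int.floor_le_floor h1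
  have h4 : ⌊b / P⌋ ≤ ⌊a / P⌋ + n := by
    rw [← Int.floor_add_intCast]; exact Int.floor_le_floor h2
  constructor <;> linarith

theorem hLGY (hPT : StPT) : StLGY := by
  intro s c m u k F η x hs hu hF hη hY
  by_contra hcon
  obtain ⟨x', hx'⟩ : ∃ x' : Pl, x' = x - (2 : ℝ) ^ k • c := ⟨_, rfl⟩
  obtain ⟨A, hA⟩ : ∃ A : ℝ, A = (2 : ℝ) ^ (k - (u : ℤ)) := ⟨_, rfl⟩
  obtain ⟨r, hr⟩ : ∃ r : ℝ, r = (2 : ℝ) ^ (k - (m : ℤ)) := ⟨_, rfl⟩
  have hA0 : 0 < A := by rw [hA]; positivity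
  have hr0 : 0 < r := by rw [hr]; positivity
  have hrA : r ≤ 2 * A := by
    rw [hr, hA]
    have : (2 : ℝ) * 2 ^ (k - (u : ℤ)) = 2 ^ (k - (u : ℤ) + 1) := by
      rw [zpow_add_one₀ (by norm_num)]; ring
    rw [this]
    refine zpow_le_zpow_right₀ (by norm_num) ?_
    have : (u : ℤ) ≤ m + 1 := by exact_mod_cast hu
    linarith
  have hY2 : Y s c m (1 / (2 : ℝ) ^ u) k (F.indicator 1) x =
      Av (sg s) A (Av bx (2 * r) (F.indicator 1)) x' := by
    unfold Y
    have : (2 : ℝ) ^ k * (1 / (2 : ℝ) ^ u) = A := by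
      rw [hA, zpow_sub₀ (by norm_num), zpow_natCast]; ring
    rw [this, ← hr, ← hx']
  have hmain := lg_main hPT s A r hs hA0 hr0 hrA F hF.1 x'
  rw [← hY2] at hmain
  have hnot : ∀ y : Pl, |y 0 - x' 0| ≤ 3 * A → |pr s y - pr s x'| ≤ 2 * r →
      volume (F ∩ RQ s (k - (u : ℤ)) (k - (m : ℤ)) y) ≤ ENNReal.ofReal (η / 18 * (A * r)) := by
    intro y h1 h2
    by_contra h3
    rw [not_le] at h3
    apply hcon
    refine ⟨y, ?_, ?_, ?_⟩
    · change ENNReal.ofReal (η / 18 * (2 : ℝ) ^ (k - (u : ℤ) + (k - (m : ℤ)))) ≤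
        volume (F ∩ RQ s (k - (u : ℤ)) (k - (m : ℤ)) y)
      rw [zpow_add₀ (by norm_num : (2 : ℝ) ≠ 0), ← hA, ← hr]
      exact h3.le
    · rw [← hx', ← hA, abs_sub_comm]; exact h1
    · rw [← hx', ← hr, abs_sub_comm]; exact h2
  have hcell : ∀ i j : ℤ, volume (F ∩ {w | (|w 0 - x' 0| ≤ 3 * A ∧ |pr s w - pr s x'| ≤ 2 * r) ∧
      ⌊w 0 / A⌋ - ⌊x' 0 / A⌋ = i ∧ ⌊pr s w / r⌋ - ⌊pr s x' / r⌋ = j}) ≤
      ENNReal.ofReal (η / 18 * (A * r)) := by
    intro i j
    rcases (F ∩ {w | (|w 0 - x' 0| ≤ 3 * A ∧ |pr s w - pr s x'| ≤ 2 * r) ∧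
      ⌊w 0 / A⌋ - ⌊x' 0 / A⌋ = i ∧ ⌊pr s w / r⌋ - ⌊pr s x' / r⌋ = j}).eq_empty_or_nonempty with h | ⟨y, hy⟩
    · rw [h]; simp
    · obtain ⟨hyF, ⟨hy1, hy2⟩, hy3, hy4⟩ := hy
      refine (measure_mono ?_).trans (hnot y hy1 hy2)
      rintro w ⟨hwF, _, hw3, hw4⟩
      refine ⟨hwF, ?_, ?_⟩
      · rw [← hA]; linarith
      · rw [← hr]; linarith
  have hcov : F ∩ {w | |w 0 - x' 0| ≤ 3 * A ∧ |pr s w - pr s x'| ≤ 2 * r} ⊆
      ⋃ q ∈ Finset.Icc (-3 : ℤ) 3 ×ˢ Finset.Icc (-2 : ℤ) 2,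
        F ∩ {w | (|w 0 - x' 0| ≤ 3 * A ∧ |pr s w - pr s x'| ≤ 2 * r) ∧
          ⌊w 0 / A⌋ - ⌊x' 0 / A⌋ = q.1 ∧ ⌊pr s w / r⌋ - ⌊pr s x' / r⌋ = q.2} := by
    rintro w ⟨hwF, hw1, hw2⟩
    rw [mem_iUnion₂]
    refine ⟨(⌊w 0 / A⌋ - ⌊x' 0 / A⌋, ⌊pr s w / r⌋ - ⌊pr s x' / r⌋), ?_, hwF, ⟨hw1, hw2⟩, rfl, rfl⟩
    rw [Finset.mem_product]
    exact ⟨lg_floor A hA0 3 _ _ (by push_cast; exact hw1), lg_floor r hr0 2 _ _ (by push_cast; exact hw2)⟩
  have hsum : volume (F ∩ {w | |w 0 - x' 0| ≤ 3 * A ∧ |pr s w - pr s x'| ≤ 2 * r}) ≤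
      ENNReal.ofReal (35 * (η / 18 * (A * r))) := by
    refine (measure_mono hcov).trans ((measure_biUnion_finset_le _ _).trans ?_)
    refine (Finset.sum_le_sum fun q _ => hcell q.1 q.2).trans ?_
    rw [Finset.sum_const, show (Finset.Icc (-3 : ℤ) 3 ×ˢ Finset.Icc (-2 : ℤ) 2).card = 35 from by decide,
      nsmul_eq_mul, ENNReal.ofReal_mul (by norm_num : (0 : ℝ) ≤ 35)]
    norm_num
  have hfin : ENNReal.ofReal η ≤ ENNReal.ofReal (35 / 36 * η) := by
    calc ENNReal.ofReal η ≤ ENNReal.ofReal (Y s c m (1 / (2 : ℝ) ^ u) k (F.indicator 1) x) :=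
          ENNReal.ofReal_le_ofReal hY
      _ ≤ _ := hmain
      _ ≤ ENNReal.ofReal (1 / (2 * r * A)) * ENNReal.ofReal (35 * (η / 18 * (A * r))) := by gcongr
      _ = ENNReal.ofReal (35 / 36 * η) := by
          rw [← ENNReal.ofReal_mul (by positivity)]
          congr 1
          field_simp
          ring
  rw [ENNReal.ofReal_le_ofReal_iff (by positivity)] at hfin
  linarith

end Pool.Agent.Helper80.RL
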