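import Pool.Agent.Helper20.RL.St1

/-!
# Project RL (MP_cb927e_an), module LMX: maximal selection (helper80)
-/

set_option autoImplicit false

open MeasureTheory Set Filter Topology
open scoped ENNReal RealInnerProductSpace

namespace Pool.Agent.Helper80.RL

open Pool.Agent.Helper68.LM (Pl)
open Pool.Agent.Helper20.RG Pool.Agent.Helper20.RL

theorem hLMX (hLGR : StLGR) : StLMX := by
  obtain ⟨g1, g2, g3, _, _⟩ := hLGR
  intro s a b T P X Y c ha hb hT hP hX hc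
  obtain ⟨Om, hOm⟩ : ∃ Om : ℤ → Set Pl, Om = fun k => {z | z ∈ P k ∧ ∀ k' ∈ T, k < k' → z ∉ P k'} :=
    ⟨_, rfl⟩
  have hOmi : ∀ k z, z ∈ Om k ↔ z ∈ P k ∧ ∀ k' ∈ T, k < k' → z ∉ P k' := by
    intro k z; rw [hOm]; rfl
  have hcl : ∀ k ∈ T, ∀ z ∈ Om k, RQ s (a k) (b k) z ⊆ Om k := by
    intro k hk z hz z' hz'
    rw [hOmi] at hz ⊢
    refine ⟨hP k hk z hz.1 hz', fun k' hk' hlt hz'P => hz.2 k' hk' hlt ?_⟩
    have h1 : z ∈ RQ s (a k) (b k) z' := by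
      rw [g2 s _ _ z z' hz']; exact (g1 s _ _ z).2.2
    exact hP k' hk' z' hz'P (g3 s _ _ _ _ z' (ha hlt.le) (hb hlt.le) h1)
  obtain ⟨S, hS⟩ : ∃ S : T × ℤ × ℤ → Set Pl, S = fun i => {z | z ∈ Om i.1 ∧
      ⌊z 0 / (2 : ℝ) ^ (a i.1)⌋ = i.2.1 ∧ ⌊pr s z / (2 : ℝ) ^ (b i.1)⌋ = i.2.2} := ⟨_, rfl⟩
  have hSi : ∀ i z, z ∈ S i ↔ z ∈ Om i.1 ∧ ⌊z 0 / (2 : ℝ) ^ (a i.1)⌋ = i.2.1 ∧
      ⌊pr s z / (2 : ℝ) ^ (b i.1)⌋ = i.2.2 := by
    intro i z; rw [hS]; rfl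
  have key : ∀ i, S i = ∅ ∨ ∃ y ∈ Om i.1, S i = RQ s (a i.1) (b i.1) y := by
    intro i
    rcases (S i).eq_empty_or_nonempty with h | ⟨y, hy⟩
    · exact Or.inl h
    · right
      have hy' := (hSi i y).1 hy
      refine ⟨y, hy'.1, ?_⟩
      ext z
      rw [hSi]
      constructor
      · rintro ⟨_, h2, h3⟩
        exact ⟨h2.trans hy'.2.1.symm, h3.trans hy'.2.2.symm⟩
      · intro hz
        exact ⟨hcl _ i.1.2 y hy'.1 hz, hz.1.trans hy'.2.1, hz.2.trans hy'.2.2⟩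
  have hSm : ∀ i, MeasurableSet (S i) := by
    intro i
    rcases key i with h | ⟨y, _, h⟩
    · rw [h]; exact MeasurableSet.empty
    · rw [h]; exact (g1 s _ _ y).1
  have hSd : Pairwise (Function.onFun Disjoint S) := by
    intro i j hij
    rw [Function.onFun, Set.disjoint_left]
    intro z hz hz'
    rw [hSi] at hz hz'
    obtain ⟨⟨k, hk⟩, p, q⟩ := i
    obtain ⟨⟨k', hk'⟩, p', q'⟩ := j
    simp only at hz hz'
    rcases lt_trichotomy k k' with h | h | h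
    · exact ((hOmi k z).1 hz.1).2 k' hk' h ((hOmi k' z).1 hz'.1).1
    · subst h
      apply hij
      rw [← hz.2.1, ← hz.2.2, ← hz'.2.1, ← hz'.2.2]
    · exact ((hOmi k' z).1 hz'.1).2 k hk h ((hOmi k z).1 hz.1).1
  have hXS : X ⊆ ⋃ i, X ∩ S i := by
    intro x hx
    obtain ⟨B, hB⟩ := hT
    have hne : ∃ k : ℤ, k ∈ T ∧ x ∈ P k := by
      have := hX hx
      rw [mem_iUnion₂] at this
      obtain ⟨k, hk, hxk⟩ := this
      exact ⟨k, hk, hxk⟩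
    obtain ⟨k, ⟨hk, hxk⟩, hmax⟩ := Int.exists_greatest_of_bdd (P := fun k => k ∈ T ∧ x ∈ P k)
      ⟨B, fun z hz => hB hz.1⟩ hne
    rw [mem_iUnion]
    refine ⟨(⟨k, hk⟩, ⌊x 0 / (2 : ℝ) ^ (a k)⌋, ⌊pr s x / (2 : ℝ) ^ (b k)⌋), hx, ?_⟩
    rw [hSi]
    refine ⟨?_, rfl, rfl⟩
    rw [hOmi]
    refine ⟨hxk, fun k' hk' hlt hxk' => ?_⟩
    exact absurd (hmax k' ⟨hk', hxk'⟩) (not_le.2 hlt)
  have hstep : ∀ i, volume (X ∩ S i) ≤ c * volume (Y ∩ S i) := by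
    intro i
    rcases key i with h | ⟨y, hy, h⟩
    · rw [h]; simp
    · have h1 : volume (X ∩ S i) ≤
          volume ({z | z ∈ X ∧ ∀ k' ∈ T, (i.1 : ℤ) < k' → z ∉ P k'} ∩ RQ s (a i.1) (b i.1) y) := by
        apply measure_mono
        rintro z ⟨hzX, hzS⟩
        refine ⟨⟨hzX, ((hOmi _ z).1 ((hSi i z).1 hzS).1).2⟩, ?_⟩
        rw [← h]; exact hzS
      refine h1.trans ?_
      rw [h]
      exact hc i.1 i.1.2 y ((hOmi _ y).1 hy).1
  calc volume X ≤ volume (⋃ i, X ∩ S i) := measure_mono hXS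
    _ ≤ ∑' i, volume (X ∩ S i) := measure_iUnion_le _
    _ ≤ ∑' i, c * volume (Y ∩ S i) := ENNReal.tsum_le_tsum hstep
    _ = c * ∑' i, volume (Y ∩ S i) := ENNReal.tsum_mul_left
    _ = c * ∑' i, (volume.restrict Y) (S i) := by
        congr 1
        refine tsum_congr fun i => ?_
        rw [Measure.restrict_apply (hSm i), inter_comm]
    _ = c * (volume.restrict Y) (⋃ i, S i) := by rw [measure_iUnion hSd hSm]
    _ = c * volume (Y ∩ ⋃ i, S i) := by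
        rw [Measure.restrict_apply (MeasurableSet.iUnion hSm), inter_comm]
    _ ≤ c * volume (Y ∩ ⋃ k ∈ T, P k) := by
        gcongr
        refine iUnion_subset fun i => ?_
        intro z hz
        rw [mem_iUnion₂]
        exact ⟨i.1, i.1.2, ((hOmi _ z).1 ((hSi i z).1 hz).1).1⟩

end Pool.Agent.Helper80.RL
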